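import Pool.Agent.Lib.MP_524519_ag.DU5.AB.Iface

/-! # Module CORE -/

set_option autoImplicit false

namespace Pool.Agent.DU5.AB.H75

open MvPowerSeries Pool.Agent.DU5 Pool.Agent.DU5.AB

theorem tot_eq {p : ℕ} (a : Fin 3 → Fin p) : tot a = (a 0 : ℕ) + a 1 + a 2 := by
  unfold tot
  rw [Fin.sum_univ_three]

theorem tot_update {p : ℕ} (a : Fin 3 → Fin p) (i : Fin 3) (b : Fin p) :
    tot (Function.update a i b) + a i = tot a + b := by
  rw [tot_eq, tot_eq]
  fin_cases i <;> simp [Function.update] <;> omega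

theorem tot_le {p : ℕ} (a : Fin 3 → Fin p) : tot a ≤ 3 * (p - 1) := by
  rw [tot_eq]
  have h0 := (a 0).2
  have h1 := (a 1).2
  have h2 := (a 2).2
  omega

/-- Module CORE. -/
theorem core (h1 : CARTIERStatement) (h2 : ISPStatement) (h3 : AIDStatement) (h4 : ASTStatement)
    (h5 : ALENStatement) (h6 : AMJStatement) (h7 : AFILStatement) (h8 : PBStatement) :
    COREStatement := by
  intro p _ k _ _ _ f hf
  obtain ⟨mono, hX, hfI⟩ := h2 p k f
  obtain ⟨-, pb2, -, -⟩ := h8 p k
  have hp : 0 < p := (Fact.out : p.Prime).pos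
  obtain ⟨A, hA⟩ := h3 p k (fun a => IS p f (3 * (p - 1) - tot a))
    (by
      intro a i b hb
      refine mono _ _ ?_
      have := tot_update a i b
      omega)
    (by
      intro a i b ha hb h hh
      have h9 := hX _ i h hh
      refine mono _ _ ?_ h9
      have := tot_update a i b
      have := tot_le (Function.update a i b)
      omega)
  have hfp : f ^ p ∈ A := by
    rw [hA]
    intro a
    have := pb2 a f 1
    rw [mul_one] at this
    rw [this]
    exact Ideal.mul_mem_right _ _ (hfI _)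
  have hst : ∀ q : Fin 3 × Fin 3, ∀ G ∈ A,
      ((X q.1 : O k 3) • (pderiv k q.2 : Derivation k (O k 3) (O k 3))) G ∈ A := by
    intro q G hG
    rw [hA]
    intro a
    exact h4 p k (fun j => IS p f j) (fun j i h hh => hX j i h hh) G ((hA G).1 hG) q.1 q.2 a
  have hcar : ∀ h ∈ IS p f 0, f ^ (p - 1) * h ∈ A := by
    intro h hh
    rw [hA]
    intro a
    rw [mul_comm (f ^ (p - 1)) h]
    exact h1 p k f h hf hh a
  have hamj := h6 p k (O k 3) (Fin 3 × Fin 3)
    (fun q => (X q.1 : O k 3) • (pderiv k q.2 : Derivation k (O k 3) (O k 3))) A (IS p f 0) f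
    hst hcar
  have hT : Ideal.span (Set.range fun q : Fin 3 × Fin 3 =>
      ((X q.1 : O k 3) • (pderiv k q.2 : Derivation k (O k 3) (O k 3))) f) =
      Ideal.span (Set.range (X : Fin 3 → O k 3)) * jac f := by
    unfold jac
    rw [Ideal.span_mul_span']
    congr 1
    ext z
    constructor
    · rintro ⟨q, rfl⟩
      exact ⟨X q.1, ⟨q.1, rfl⟩, pderiv k q.2 f, ⟨q.2, rfl⟩, rfl⟩
    · rintro ⟨_, ⟨i, rfl⟩, _, ⟨j, rfl⟩, rfl⟩
      exact ⟨(i, j), rfl⟩
  rw [hT] at hamj
  have hfil := h7 k (O k 3) p A f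
    (fun j => (Ideal.span (Set.range (X : Fin 3 → O k 3)) * jac f) ^ (p - 1 - j) * IS p f 0) hfp
    (by
      intro j hj q hq
      have h9 := hamj (p - 1 - j) (by omega) q hq
      rw [show p - 1 - (p - 1 - j) = j by omega, show p - (p - 1 - j) = j + 1 by omega] at h9
      exact h9)
  rw [Finset.sum_range_reflect (fun n => len k (Ideal.span {f} ⊔
    (Ideal.span (Set.range (X : Fin 3 → O k 3)) * jac f) ^ n * IS p f 0))] at hfil
  refine le_trans (le_of_eq ?_) hfil
  rw [h5 p k (fun a => IS p f (3 * (p - 1) - tot a)) A hA]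
  refine Fintype.sum_equiv (Equiv.piCongrRight fun _ : Fin 3 => Fin.revPerm) _ _ ?_
  intro a
  congr 2
  rw [tot_eq, tot_eq]
  have h0 := (a 0).2
  have h1 := (a 1).2
  have h2 := (a 2).2
  simp only [Equiv.piCongrRight_apply, Pi.map_apply, Fin.revPerm_apply, Fin.val_rev]
  omega

end Pool.Agent.DU5.AB.H75
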