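import Pool.Agent.Lib.MP_524519_ag.DU5.AB.Iface

/-! # Module AMJ: an ideal stable under derivations -/

set_option autoImplicit false

namespace Pool.Agent.DU5.AB.H75

open MvPowerSeries Pool.Agent.DU5 Pool.Agent.DU5.AB

/-- The elements `g` such that `f^m g + f^(m+1) r ∈ A` for some `r`. -/
def QI {R : Type} [CommRing R] (A : Ideal R) (f : R) (m : ℕ) : Ideal R where
  carrier := {g | ∃ r, f ^ m * g + f ^ (m + 1) * r ∈ A}
  zero_mem' := ⟨0, by simp⟩
  add_mem' := by
    rintro a b ⟨r, hr⟩ ⟨s, hs⟩
    refine ⟨r + s, ?_⟩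
    have := A.add_mem hr hs
    convert this using 1
    ring
  smul_mem' := by
    rintro c a ⟨r, hr⟩
    refine ⟨c * r, ?_⟩
    have := A.mul_mem_left c hr
    convert this using 1
    rw [smul_eq_mul]
    ring

/-- Module AMJ. -/
theorem amj : AMJStatement := by
  intro p _ k R ι _ _ _ _ θ A I₀ f hθ hI n
  induction n with
  | zero =>
    intro _ g hg
    rw [pow_zero, one_mul] at hg
    refine ⟨0, ?_⟩
    rw [mul_zero, add_zero]
    exact hI g hg
  | succ n ih =>
    intro hn
    obtain ⟨m, hm⟩ : ∃ m, p = n + 2 + m := ⟨p - (n + 2), by omega⟩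
    have e1 : p - 1 - n = m + 1 := by omega
    have e2 : p - n = m + 2 := by omega
    have e3 : p - 1 - (n + 1) = m := by omega
    have e4 : p - (n + 1) = m + 1 := by omega
    have ih' := ih (by omega)
    rw [e1, e2] at ih'
    rw [e3, e4]
    suffices h : Ideal.span (Set.range fun i => θ i f) ^ (n + 1) * I₀ ≤ QI A f m from
      fun g hg => h hg
    rw [pow_succ', mul_assoc, Ideal.mul_le]
    intro t ht g' hg'
    obtain ⟨r, hr⟩ := ih' g' hg'
    -- the inverse of m + 1 in k
    have hk : ((m + 1 : ℕ) : k) ≠ 0 := by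
      intro h0
      rw [CharP.cast_eq_zero_iff k p] at h0
      have := Nat.le_of_dvd (by omega) h0
      omega
    set c : R := algebraMap k R (((m + 1 : ℕ) : k)⁻¹) with hc
    have hcm : c * ((m : R) + 1) = 1 := by
      have h1 : ((m : R) + 1) = algebraMap k R ((m + 1 : ℕ) : k) := by
        rw [map_natCast]; push_cast; rfl
      rw [h1, hc, ← map_mul, inv_mul_cancel₀ hk, map_one]
    refine Submodule.span_induction (p := fun t _ => t * g' ∈ QI A f m) ?_ ?_ ?_ ?_ ht
    · rintro _ ⟨i, rfl⟩
      have h1 := A.mul_mem_left c (hθ i _ hr)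
      refine ⟨c * (θ i g' + ((m : R) + 2) * θ i f * r + f * θ i r), ?_⟩
      convert h1 using 1
      rw [map_add, Derivation.leibniz, Derivation.leibniz, Derivation.leibniz_pow,
        Derivation.leibniz_pow]
      simp only [smul_eq_mul, nsmul_eq_mul, Nat.add_sub_cancel]
      rw [show m + 2 - 1 = m + 1 by omega]
      push_cast
      linear_combination (-(f ^ m * (θ i f * g'))) * hcm
    · rw [zero_mul]; exact Ideal.zero_mem _
    · intro x y _ _ hx hy
      rw [add_mul]; exact Ideal.add_mem _ hx hy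
    · intro a x _ hx
      rw [smul_eq_mul, mul_assoc]; exact Ideal.mul_mem_left _ _ hx

end Pool.Agent.DU5.AB.H75
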